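import Pool.Agent.TBP.StmtsA

set_option autoImplicit false

/-! Squad TBP, row CVX: a convexity inequality for `x ^ rho`. -/

namespace Pool.Agent.TBP.H10

open Finset Pool.Agent.TBP

theorem one_le_rho : 1 ≤ rho := by
  unfold rho
  have h1 : 0 < Real.log 2 := Real.log_pos (by norm_num)
  have h2 : Real.log 2 ≤ 1 := by
    have h3 := Real.log_two_lt_d9
    linarith
  rw [le_div_iff₀ h1, one_mul]
  exact h2

theorem two_rpow_rho : (2 : ℝ) ^ rho = Real.exp 1 := by
  have h1 : 0 < Real.log 2 := Real.log_pos (by norm_num)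
  rw [Real.rpow_def_of_pos (by norm_num)]
  unfold rho
  rw [mul_one_div_cancel h1.ne']

theorem cvx_step (a r : ℝ) (ha : 0 ≤ a) (hr : 1 ≤ r) :
    (a + 1) * (a + 2) ^ r ≤ (a + 2 ^ r) * (a + 1) ^ r := by
  have hn : 0 < a + 1 := by linarith
  have h := (convexOn_rpow hr).2 (Set.mem_Ici.mpr zero_le_one)
    (Set.mem_Ici.mpr (zero_le_two : (0 : ℝ) ≤ 2)) (div_nonneg ha hn.le)
    (one_div_nonneg.mpr hn.le) (by
      rw [← add_div]
      exact div_self hn.ne')
  simp only [smul_eq_mul, mul_one, Real.one_rpow] at h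
  have e1 : a / (a + 1) + 1 / (a + 1) * 2 = (a + 2) / (a + 1) := by
    field_simp
  rw [e1, Real.div_rpow (by linarith) hn.le] at h
  have hp : 0 < (a + 1) ^ r := Real.rpow_pos_of_pos hn r
  have h2 := mul_le_mul_of_nonneg_left h (mul_pos hn hp).le
  calc (a + 1) * (a + 2) ^ r = (a + 1) * (a + 1) ^ r * ((a + 2) ^ r / (a + 1) ^ r) := by
        field_simp
    _ ≤ (a + 1) * (a + 1) ^ r * (a / (a + 1) + 1 / (a + 1) * 2 ^ r) := h2
    _ = (a + 2 ^ r) * (a + 1) ^ r := by
        field_simp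

theorem cvx : CvxStmt := by
  intro a
  induction a with
  | zero =>
    simp
  | succ a ih =>
    rw [Finset.sum_range_succ, mul_add]
    have h := cvx_step (a : ℝ) rho (Nat.cast_nonneg a) one_le_rho
    rw [two_rpow_rho] at h
    push_cast
    have e1 : (a : ℝ) + 1 + 1 = (a : ℝ) + 2 := by ring
    rw [e1]
    calc ((a : ℝ) + 1) * ((a : ℝ) + 2) ^ rho ≤
          ((a : ℝ) + Real.exp 1) * ((a : ℝ) + 1) ^ rho := h
      _ = (a : ℝ) * ((a : ℝ) + 1) ^ rho + Real.exp 1 * ((a : ℝ) + 1) ^ rho := by ring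
      _ ≤ _ := add_le_add_left ih _

end Pool.Agent.TBP.H10
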