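import Pool.Agent.TBP.StmtsC

/-! Squad TBP, row DI2 (adaptation of the row DIV of helper92). -/

set_option autoImplicit false

namespace Pool.Agent.TBP.H10

open Finset Pool.Agent.TBP Pool.Agent.Helper46_MNO
open scoped Pointwise

theorem di2_sum_div {a b : ℕ} (h : a.Coprime b) (f : ℕ → ℝ) :
    ∑ d ∈ (a * b).divisors, f d = ∑ x ∈ a.divisors, ∑ y ∈ b.divisors, f (x * y) := by
  rw [Nat.divisors_mul, Finset.mul_def, Finset.sum_image, Finset.sum_product]
  exact h.mul_injOn_divisors

theorem di2_abel (g : ℕ → ℝ) (k : ℕ) :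
    ∑ i ∈ range (k + 1), g i * ((k : ℝ) - i) = ∑ j ∈ range k, ∑ i ∈ range (j + 1), g i := by
  induction k with
  | zero => simp
  | succ k ih =>
    rw [Finset.sum_range_succ, Finset.sum_range_succ (fun j => ∑ i ∈ range (j + 1), g i), ← ih,
      ← Finset.sum_add_distrib]
    push_cast
    have e : g (k + 1) * ((k : ℝ) + 1 - (k + 1)) = 0 := by ring
    rw [e, add_zero]
    refine Finset.sum_congr rfl fun i _ => ?_
    ring

theorem di2 (cx2 : Cx2Stmt) (gs2 : Gs2Stmt) : Di2Stmt := by
  intro r m hr hrho
  obtain ⟨g0, g1, gm, gs⟩ := gs2 r hr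
  obtain ⟨H, hH⟩ : ∃ H : ℕ → ℝ, ∀ m, H m = ∑ d ∈ m.divisors, GR r d * Real.log ((m : ℝ) / d) :=
    ⟨_, fun _ => rfl⟩
  -- the lower bound
  have low : ∀ m : ℕ, 1 ≤ m → tk r m * Real.log m ≤ Real.exp 1 * H m := by
    intro m
    induction m using Nat.recOnPosPrimePosCoprime with
    | prime_pow p k hp hk =>
      intro _
      have hlp : 0 ≤ Real.log p := Real.log_nonneg (by exact_mod_cast hp.one_lt.le)
      have hp0 : (0 : ℝ) < p := by exact_mod_cast hp.pos
      have e1 : H (p ^ k) = Real.log p * ∑ j ∈ range k, ((j : ℝ) + 1) ^ r := by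
        rw [hH, Nat.sum_divisors_prime_pow hp]
        have e2 : ∀ j, ∑ i ∈ range (j + 1), GR r (p ^ i) = ((j : ℝ) + 1) ^ r := by
          intro j
          have := gs (p ^ j) (Nat.one_le_pow _ _ hp.pos)
          rw [Nat.sum_divisors_prime_pow hp, tk_prime_pow r hp] at this
          exact this
        have e3 : ∑ j ∈ range k, ((j : ℝ) + 1) ^ r =
            ∑ i ∈ range (k + 1), GR r (p ^ i) * ((k : ℝ) - i) := by
          rw [di2_abel (fun i => GR r (p ^ i)) k]
          exact Finset.sum_congr rfl fun j _ => (e2 j).symm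
        rw [e3, Finset.mul_sum]
        refine Finset.sum_congr rfl fun i _ => ?_
        push_cast
        rw [Real.log_div (by positivity) (by positivity), Real.log_pow, Real.log_pow]
        ring
      rw [e1, tk_prime_pow r hp]
      push_cast
      rw [Real.log_pow]
      have := cx2 r k hr hrho
      calc ((k : ℝ) + 1) ^ r * (k * Real.log p)
          = ((k : ℝ) * ((k : ℝ) + 1) ^ r) * Real.log p := by ring
        _ ≤ (Real.exp 1 * ∑ i ∈ range k, ((i : ℝ) + 1) ^ r) * Real.log p :=
            mul_le_mul_of_nonneg_right this hlp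
        _ = _ := by ring
    | zero => intro h; omega
    | one =>
      intro _
      have : H 1 = 0 := by rw [hH]; simp
      rw [this]; simp
    | coprime a b ha hb hab iha ihb =>
      intro _
      have iha := iha (by omega)
      have ihb := ihb (by omega)
      have ha0 : (0 : ℝ) < a := by exact_mod_cast (by omega : 0 < a)
      have hb0 : (0 : ℝ) < b := by exact_mod_cast (by omega : 0 < b)
      have e1 : H (a * b) = H a * tk r b + tk r a * H b := by
        rw [hH, di2_sum_div hab, hH a, hH b, ← gs a (by omega), ← gs b (by omega), Finset.sum_mul_sum,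
          Finset.sum_mul_sum, ← Finset.sum_add_distrib]
        refine Finset.sum_congr rfl fun x hx => ?_
        rw [← Finset.sum_add_distrib]
        refine Finset.sum_congr rfl fun y hy => ?_
        have hxd := Nat.dvd_of_mem_divisors hx
        have hyd := Nat.dvd_of_mem_divisors hy
        have hx0 : 0 < x := Nat.pos_of_mem_divisors hx
        have hy0 : 0 < y := Nat.pos_of_mem_divisors hy
        have hxy : Nat.Coprime x y := Nat.Coprime.coprime_dvd_left hxd
          (Nat.Coprime.coprime_dvd_right hyd hab)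
        have hx1 : (0 : ℝ) < x := by exact_mod_cast hx0
        have hy1 : (0 : ℝ) < y := by exact_mod_cast hy0
        rw [gm x y hxy hx0 hy0]
        push_cast
        rw [Real.log_div (by positivity) (by positivity), Real.log_mul ha0.ne' hb0.ne',
          Real.log_mul hx1.ne' hy1.ne', Real.log_div ha0.ne' hx1.ne',
          Real.log_div hb0.ne' hy1.ne']
        ring
      rw [e1, tk_coprime r hab]
      push_cast
      rw [Real.log_mul ha0.ne' hb0.ne']
      have ta := tk_nonneg r a
      have tb := tk_nonneg r b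
      calc tk r a * tk r b * (Real.log a + Real.log b)
          = (tk r a * Real.log a) * tk r b + tk r a * (tk r b * Real.log b) := by ring
        _ ≤ (Real.exp 1 * H a) * tk r b + tk r a * (Real.exp 1 * H b) :=
            add_le_add (mul_le_mul_of_nonneg_right iha tb) (mul_le_mul_of_nonneg_left ihb ta)
        _ = _ := by ring
  intro hm
  obtain ⟨Y, hY⟩ : ∃ Y : ℝ, Y = ∑ d ∈ m.divisors.filter (fun d => d ^ 4 ≤ m ^ 3), GR r d :=
    ⟨_, rfl⟩
  rw [← hY]
  rcases Nat.eq_or_lt_of_le hm with h1 | h1
  · subst h1
    have : Y = 1 := by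
      rw [hY]
      have e : (1 : ℕ).divisors.filter (fun d => d ^ 4 ≤ 1 ^ 3) = {1} := by
        rw [Nat.divisors_one]; rfl
      rw [e, Finset.sum_singleton, g1]
    rw [this, tk_one]; norm_num
  · have hL : 0 < Real.log m := Real.log_pos (by exact_mod_cast h1)
    have hm0 : (0 : ℝ) < m := by exact_mod_cast hm
    have hsplit : ∑ d ∈ m.divisors.filter (fun d => ¬ d ^ 4 ≤ m ^ 3), GR r d = tk r m - Y := by
      rw [hY, ← gs m hm, ← Finset.sum_filter_add_sum_filter_not m.divisors
        (fun d => d ^ 4 ≤ m ^ 3)]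
      ring
    have up : H m ≤ Real.log m * Y + (1 / 4 * Real.log m) * (tk r m - Y) := by
      rw [hH, ← Finset.sum_filter_add_sum_filter_not m.divisors (fun d => d ^ 4 ≤ m ^ 3), hY,
        ← hY, ← hsplit, hY, Finset.mul_sum, Finset.mul_sum]
      refine add_le_add (Finset.sum_le_sum fun d hd => ?_) (Finset.sum_le_sum fun d hd => ?_)
      · have hd0 : 0 < d := Nat.pos_of_mem_divisors (Finset.mem_filter.1 hd).1
        have hd1 : (1 : ℝ) ≤ d := by exact_mod_cast hd0
        have : Real.log ((m : ℝ) / d) ≤ Real.log m := by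
          rw [Real.log_div hm0.ne' (by positivity)]
          have := Real.log_nonneg hd1
          linarith
        rw [mul_comm]
        exact mul_le_mul_of_nonneg_right this (g0 d)
      · have hd0 : 0 < d := Nat.pos_of_mem_divisors (Finset.mem_filter.1 hd).1
        have hd1 : (0 : ℝ) < d := by exact_mod_cast hd0
        have h4 : m ^ 3 < d ^ 4 := not_le.1 (Finset.mem_filter.1 hd).2
        have h5 : (m : ℝ) ^ 3 ≤ (d : ℝ) ^ 4 := by exact_mod_cast h4.le
        have h6 := Real.log_le_log (by positivity) h5
        rw [Real.log_pow, Real.log_pow] at h6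
        push_cast at h6
        have : Real.log ((m : ℝ) / d) ≤ 1 / 4 * Real.log m := by
          rw [Real.log_div hm0.ne' (by positivity)]
          linarith
        rw [mul_comm]
        exact mul_le_mul_of_nonneg_right this (g0 d)
    have hlow := low m hm
    have he := Real.exp_one_lt_d9
    have hepos := Real.exp_pos 1
    have h7 : tk r m * Real.log m ≤
        (Real.exp 1 * (Y + 1 / 4 * (tk r m - Y))) * Real.log m := by
      calc tk r m * Real.log m ≤ Real.exp 1 * H m := hlow
        _ ≤ Real.exp 1 * (Real.log m * Y + (1 / 4 * Real.log m) * (tk r m - Y)) :=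
            mul_le_mul_of_nonneg_left up hepos.le
        _ = _ := by ring
    have h8 : tk r m ≤ Real.exp 1 * (Y + 1 / 4 * (tk r m - Y)) :=
      le_of_mul_le_mul_right h7 hL
    have hY0 : 0 ≤ Y := by
      rw [hY]; exact Finset.sum_nonneg fun d _ => g0 d
    have ht := tk_nonneg r m
    have h9 : Real.exp 1 * (Y + 1 / 4 * (tk r m - Y)) ≤
        2.7182818286 * (Y + 1 / 4 * (tk r m - Y)) := by
      refine mul_le_mul_of_nonneg_right he.le ?_
      linarith
    linarith

end Pool.Agent.TBP.H10
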